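import Pool.Agent.Y192.FN.TorP
import Pool.Agent.Y288.FN.Nrat

/-!
# From the multiplicative group to rational curves, pointwise
-/

set_option autoImplicit false

namespace Pool.Agent.Y815.FN

open MvPolynomial Pool.Agent.Y192.FN Pool.Agent.Y288.FG Pool.Agent.Y288.FN

theorem t_nline : St_nline := by
  intro n r X m hm he hG p s hps y hy
  classical
  have hne : ∀ z : ℂ, z ≠ 0 → ∃ i, (p i).eval z ≠ 0 := by
    intro z hz
    have h1 := (hps.mem z hz).1.1
    exact Function.ne_iff.1 h1
  have hsol : ∀ z : ℂ, z ≠ 0 → Sol X m (fun i => (p i).eval z) (fun j => (s j).eval z) := by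
    intro z hz
    refine ⟨fun f hf => ?_, fun j => ?_, ?_⟩
    · rw [← sum_homogeneousComponent f, map_sum]
      refine Finset.sum_eq_zero fun k _ => ?_
      rw [MvPolynomial.aeval_eq_eval]
      exact (hps.mem z hz).1.2.1 _ ⟨X.hJ f hf k, k, homogeneousComponent_isHomogeneous k f⟩
    · rw [MvPolynomial.aeval_eq_eval]
      exact (hps.mem z hz).1.2.2 j
    · rw [hG, map_one]
      exact one_ne_zero
  have hex : ∃ i, p i ≠ 0 := by
    obtain ⟨i, hi⟩ := hne 1 one_ne_zero
    exact ⟨i, fun h0 => hi (by rw [h0]; simp)⟩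
  obtain ⟨i0, hi0, hmin⟩ := Finset.exists_min_image (Finset.univ.filter fun i => p i ≠ 0)
    (fun i => (p i).rootMultiplicity 0) (by
      obtain ⟨i, hi⟩ := hex
      exact ⟨i, Finset.mem_filter.mpr ⟨Finset.mem_univ _, hi⟩⟩)
  have hi0' : p i0 ≠ 0 := (Finset.mem_filter.mp hi0).2
  set a := (p i0).rootMultiplicity 0 with ha
  have hp : ∀ i, ∃ p' : Polynomial ℂ, p i = Polynomial.X ^ a * p' := by
    intro i
    by_cases h0 : p i = 0
    · exact ⟨0, by rw [h0, mul_zero]⟩
    · have h4 := hmin i (Finset.mem_filter.mpr ⟨Finset.mem_univ _, h0⟩)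
      have h5 : Polynomial.X ^ a ∣ p i := by
        have h6 := (Polynomial.le_rootMultiplicity_iff h0 (a := (0 : ℂ)) (n := a)).mp h4
        rwa [Polynomial.C_0, sub_zero] at h6
      exact h5
  choose p' hp' using hp
  have hp0 : (p' i0).eval 0 ≠ 0 := by
    intro h0
    have h4 : Polynomial.X ∣ p' i0 := by
      rw [← sub_zero Polynomial.X, ← Polynomial.C_0]
      exact Polynomial.dvd_iff_isRoot.mpr h0
    obtain ⟨q, hq⟩ := h4
    have h5 : a + 1 ≤ (p i0).rootMultiplicity 0 := by
      rw [Polynomial.le_rootMultiplicity_iff hi0', Polynomial.C_0, sub_zero]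
      refine ⟨q, ?_⟩
      rw [hp' i0, hq]
      ring
    omega
  have hpm : ∀ {d : ℕ} {F : MvPolynomial (Fin (n + 1)) ℂ}, F.IsHomogeneous d →
      aeval (fun i => p i ^ m) F =
        (Polynomial.X ^ (a * (m * d)) : Polynomial ℂ) * aeval (fun i => p' i ^ m) F := by
    intro d F hF
    have h1 : (fun i => p i ^ m) = fun i => (Polynomial.X ^ (a * m) : Polynomial ℂ) * p' i ^ m := by
      funext i
      rw [hp' i, mul_pow, ← pow_mul]
    rw [h1, aeval_scale hF, ← pow_mul, mul_assoc a m d]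
  have heq : ∀ j, s j ^ X.e j = aeval (fun i => p i ^ m) (X.F j) := by
    intro j
    rw [← sub_eq_zero]
    refine poly_zero fun z hz => ?_
    rw [Polynomial.eval_sub, Polynomial.eval_pow, eval_ae, sub_eq_zero]
    exact (hsol z hz).eqn j
  have hX0 : ∀ k : ℕ, (Polynomial.X ^ k : Polynomial ℂ) ≠ 0 := fun k =>
    pow_ne_zero _ Polynomial.X_ne_zero
  have hJ : ∀ f ∈ X.J, aeval (fun i => p' i ^ m) f = 0 := by
    intro f hf
    rw [← sum_homogeneousComponent f, map_sum]
    refine Finset.sum_eq_zero fun k _ => ?_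
    have h1 : aeval (fun i => p i ^ m) (homogeneousComponent k f) = 0 := by
      refine poly_zero fun z hz => ?_
      rw [eval_ae]
      exact (hsol z hz).mem _ (X.hJ f hf k)
    rw [hpm (homogeneousComponent_isHomogeneous k f)] at h1
    exact (mul_eq_zero.1 h1).resolve_left (hX0 _)
  have hw : ∀ j, m * X.d j / X.e j * X.e j = m * X.d j := fun j =>
    Nat.div_mul_cancel ((he j).mul_right _)
  have hs : ∀ j, ∃ s' : Polynomial ℂ, s j = Polynomial.X ^ (a * (m * X.d j / X.e j)) * s' := by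
    intro j
    have h6 : ((Polynomial.X : Polynomial ℂ) ^ (a * (m * X.d j / X.e j))) ^ X.e j ∣
        s j ^ X.e j := by
      rw [← pow_mul, mul_assoc, hw, heq j, hpm (X.hF j)]
      exact dvd_mul_right _ _
    exact (IsIntegrallyClosed.pow_dvd_pow_iff (X.he j).ne').mp h6
  choose s' hs' using hs
  have heq' : ∀ j, s' j ^ X.e j = aeval (fun i => p' i ^ m) (X.F j) := by
    intro j
    have h1 := heq j
    rw [hpm (X.hF j), hs' j, mul_pow, ← pow_mul, mul_assoc a, hw] at h1
    exact mul_left_cancel₀ (hX0 _) h1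
  have hne' : ∀ z : ℂ, ∃ i, (p' i).eval z ≠ 0 := by
    intro z
    by_cases hz : z = 0
    · exact ⟨i0, by rw [hz]; exact hp0⟩
    · obtain ⟨i, hi⟩ := hne z hz
      refine ⟨i, fun h0 => hi ?_⟩
      rw [hp' i, Polynomial.eval_mul, h0, mul_zero]
  have hpe : ∀ (z : ℂ) i, (p i).eval z = z ^ a * (p' i).eval z := by
    intro z i
    rw [hp' i, Polynomial.eval_mul, Polynomial.eval_pow, Polynomial.eval_X]
  have hse : ∀ (z : ℂ) j, (s j).eval z = (z ^ a) ^ (m * X.d j / X.e j) * (s' j).eval z := by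
    intro z j
    rw [hs' j, Polynomial.eval_mul, Polynomial.eval_pow, Polynomial.eval_X, pow_mul]
  refine ⟨p', s', ⟨hne', fun z => ⟨fun f hf => ?_, fun j => ?_, ?_⟩, ?_⟩, ?_⟩
  · rw [← eval_ae, hJ f hf, Polynomial.eval_zero]
  · rw [← eval_ae, ← heq' j, Polynomial.eval_pow]
  · rw [hG, map_one]
    exact one_ne_zero
  · by_contra hcon
    push Not at hcon
    -- the coordinates are multiples of one polynomial
    have h1 : ∀ (z : ℂ) i, (p' i).eval z = (p' i0).eval z * ((p' i).eval 0 / (p' i0).eval 0) := by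
      intro z i
      have h2 := hcon z 0 i i0
      field_simp
      exact h2
    have h2 : ∀ z : ℂ, (p' i0).eval z ≠ 0 := by
      intro z h0
      obtain ⟨i, hi⟩ := hne' z
      exact hi (by rw [h1 z i, h0, zero_mul])
    have h3 : (p' i0).degree = 0 := by
      by_contra hd
      obtain ⟨z, hz⟩ := IsAlgClosed.exists_root (p' i0) hd
      exact h2 z hz
    have h4 : ∀ z : ℂ, (p' i0).eval z = (p' i0).eval 0 := by
      intro z
      rw [Polynomial.eq_C_of_degree_eq_zero h3, Polynomial.eval_C, Polynomial.eval_C]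
    have h5 : ∀ (z : ℂ) i, (p' i).eval z = (p' i).eval 0 := by
      intro z i
      rw [h1 z i, h4 z, mul_div_cancel₀ _ hp0]
    have h6 : ∀ j, s' j ^ X.e j = Polynomial.C ((s' j ^ X.e j).eval 0) := by
      intro j
      refine Polynomial.funext fun z => ?_
      rw [Polynomial.eval_C, heq' j, eval_ae, eval_ae]
      simp only [h5 z]
    have h7 : ∀ j, (s' j).natDegree = 0 := by
      intro j
      have h8 := congrArg Polynomial.natDegree (h6 j)
      rw [Polynomial.natDegree_C, Polynomial.natDegree_pow] at h8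
      exact (mul_eq_zero.1 h8).resolve_left (X.he j).ne'
    have h8 : ∀ (z : ℂ) j, (s' j).eval z = (s' j).eval 0 := by
      intro z j
      rw [Polynomial.eq_C_of_natDegree_eq_zero (h7 j), Polynomial.eval_C, Polynomial.eval_C]
    obtain ⟨z, z', hz, hz', hns⟩ := hps.nonconst
    apply hns
    have hza : z ^ a ≠ 0 := pow_ne_zero _ hz
    refine ⟨z' ^ a / z ^ a, div_ne_zero (pow_ne_zero _ hz') hza, fun i => ?_, fun j => ?_⟩
    · show (p i).eval z' = z' ^ a / z ^ a * (p i).eval z
      rw [hpe z' i, hpe z i, h5 z i, h5 z' i]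
      field_simp
    · show (s j).eval z' = (z' ^ a / z ^ a) ^ (m * X.d j / X.e j) * (s j).eval z
      rw [hse z' j, hse z j, h8 z j, h8 z' j, ← mul_assoc, ← mul_pow, div_mul_cancel₀ _ hza]
  · refine ⟨y ^ a, pow_ne_zero _ hy, fun i => hpe y i, fun j => hse y j⟩

end Pool.Agent.Y815.FN
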